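import Pool.Agent.R937.PZ.Mot
import Pool.Agent.R900.PT.Main

/-!
# The Tate conjecture in étale homology for the singular and open varieties generated by products of
# abelian varieties of dimension at most three, the threefolds not ordinary

An abelian variety over the field with `p ^ a` elements is modelled by `RedAV` (Honda, Tate): a
finite product of CM types `(E i, Φ i)` with Weil numbers `π i ∈ E i` that satisfy the formula of
Shimura and Taniyama; its cohomology of degree `n`, with coefficients in an algebraically closed field
`Ω`, consists of the alternating `n`-forms on the Tate module `Ω ⊗ H_1`, on which the Frobenius
endomorphism acts by `π`.

We consider (`IsGoodAVP`) the abelian varieties `Y` of the following kinds: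

* all abelian varieties of dimension at most five;
* the abelian varieties that are isogenous, over an algebraic closure, to a product of a supersingular
  abelian variety of any dimension and of abelian varieties of dimension at most three (any number, any
  multiplicity), such that any two factors of dimension three whose CM fields have the same Galois
  closure satisfy one of the following: their fields are Galois over `ℚ`; one of them is supersingular;
  they are isogenous; **neither of them is ordinary and their `p`-ranks are not `{1, 2}`**.

So `Y` may be any product of elliptic curves, of abelian surfaces and of abelian threefolds that all
have `p`-rank two, or that all have `p`-rank zero or one; nonisogenous threefolds with the same CM field,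
or with different CM fields with the same Galois closure, are allowed. The theorems in the starting files
(`IsGoodAVS`) exclude two nonisogenous threefolds that are not supersingular and whose CM fields have the
same Galois closure, unless these fields are Galois over `ℚ`.

`Homology Ω V` are data of motivic homology `M X n j = H_n^M(X, ℚ(j)) = CH_j(X, n - 2 j) ⊗ ℚ` (higher
Chow groups) and of `ℓ`-adic homology `E X n j = H_n(X, ℚ_ℓ(j))` of schemes `X : V` of finite type over
finite fields, with the Frobenius and the regulator. Let `𝒢` (`Generated`) be the smallest class of
schemes that contains those with the homology groups of the abelian varieties above, that is closed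
under direct summands of finite sums of twists of motives, and that contains all of a closed subscheme
`Z` of `X`, `X` and `X ∖ Z` if it contains two of them. For example, it contains the open and the
singular varieties that are stratified by abelian varieties as above.

**Theorem.** For all `X` in `𝒢`, singular or not, proper or not, and all `j` the cycle class map
`c_j : CH_j(X)_(ℚ_ℓ) → H_(2 j)(X, ℚ_ℓ(j))^G` is surjective, over the finite ground field; moreover it is
bijective.

Here `CH_j(X) ⊗ ℚ` is the group `M X (2 j) j` of the motivic homology, and the étale homology
`H_(2 j)(X, ℚ_ℓ(j))` is `E X (2 j) j`.

Properties of the theory of cycles that are used for the abelian varieties `Y` (`IsChowS`,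
`IsMotivic`): Poincaré duality, the formal properties of correspondences, the nilpotence of
homologically trivial correspondences (Kimura), the operation of the Frobenius endomorphism on higher
Chow groups, the vanishing of the higher rational `K`-groups of a finite field (Quillen), and the
algebraicity of the classes in `AlgS` (theorems of Tate, Markman and Ramón Marí). The main step is
`Pool.Agent.R937.PG.main` (in `Pool/Agent/R937/PZ`): all Tate classes on all powers of `Y` are in
`AlgS`, that is, they are generated by classes of degree two, by reductions of split Weil classes of
degree four and six, and by reductions of Hodge classes of degree four on products of elliptic curves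
and abelian surfaces. The passage from the Tate conjecture to all degrees and to the class `𝒢` is due
to Soulé, Geisser, Kahn and Jannsen.
-/

set_option autoImplicit false

namespace Pool.Agent.Results.MP_40dc3c_ag.NonOrdinaryThreefolds

open Pool.Agent.W495.TA Pool.Agent.W495.FM Pool.Agent.R937.PG Pool.Agent.R900.PT

/-- The cycle class map is surjective (and injective) onto the invariants of Frobenius in étale homology
for all members of the class generated by the abelian varieties of dimension at most five and by the
products of elliptic curves, abelian surfaces and abelian threefolds that are not ordinary. -/
theorem result (p : ℕ) [Fact p.Prime] (ν : PadicAlgCl p ≃+* ℂ) (Ω : Type) [Field Ω]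
    [IsAlgClosed Ω] [CharZero Ω] (V : Type) (T : Homology Ω V) (hT : IsHomology T) (X : V)
    (hX : Generated T (IsGoodAbelianP p ν T) X) (j : ℤ) :
    IsSurjectiveAt T X (2 * j) j ∧ IsInjectiveAt T X (2 * j) j :=
  ⟨surj_of_tb (tb_goodP hT hX) _ _, inj_of_tb (tb_goodP hT hX) _ _⟩

end Pool.Agent.Results.MP_40dc3c_ag.NonOrdinaryThreefolds
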