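import Mathlib
import Pool.Agent.R930.LocalKern
import Pool.Agent.TH776.FM.RepDefs

/-!
# The Tate conjecture for the étale homology of `A ^ n × Z`, `Z` an arbitrary variety

Let `k` be a finitely generated field of any characteristic, `ℓ` a prime different from it, `Γ` the Galois
group of `k`, and `χ` the cyclotomic character.

Let `Z` be ANY variety over `k` (it may be singular and open, so that its homology is in general mixed
and not semisimple).  Let `H b = H_b(Z, ℚ_ℓ)` be its (Borel-Moore) étale homology over the separable
closure, with the action of `Γ`.  The invariants of an open subgroup of `Γ` in `H_{2e}(Z, ℚ_ℓ(e))` (in the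
notation of Jannsen) are the elements of `H_{2e}(Z, ℚ_ℓ)` on which it acts by `χ ^ e`; the conjecture
of Jannsen for `Z`, over all finite extensions of `k`, says that they are linear combinations of classes of
`e`-dimensional cycles (`Surjective`), which form the space `Z.cycles e`.

Let `A` be an abelian variety over `k` of dimension `g`, `V = V_ℓ(A)` the rational Tate module with the
action `ρ` of `Γ` and `ω` the Weil pairing of a polarization.  By theorems of Zarhin, Mori and Faltings `V`
is semisimple, also over finite extensions of `k`, and the Tate classes of degree two on `A ^ n` are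
divisor classes.

By the Künneth formula and Poincaré duality for `A ^ n` the homology `H_{2j}(A ^ n × Z, ℚ_ℓ(j))`, with
`j = n g + i`, `i` an integer, is the sum of the spaces of alternating forms in `a` variables on
`V ^ n` with values in `H_b(Z, ℚ_ℓ(i))`, `b = 2 i + a`.  For `a = 2 m` one has `b = 2 e`, and for
`a = 2 m + 1` one has `b = 2 e + 1`, with `e = i + m`.  So a Tate class on `A ^ n × Z` over a finite extension
of `k` is given by forms `f` with `f (ρ(s) v) = χ(s) ^ (m - e) · s (f v)` for `s` in a subgroup of
finite index (`IsTateEven`, `IsTateOdd`).  The components of the classes of cycles on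
`A ^ n × Z` form subspaces (`Components`; the projectors to the components for fixed `a` are algebraic
cycles on `A ^ n × A ^ n`, Lieberman), which contain the exterior products of divisor classes
on `A ^ n` and of classes of cycles on `Z`; and `A ^ 0 × Z = Z`.

The condition on `A` (`MixedPlaces`): let `K` be the algebraic closure of `ℚ_ℓ` and `X = K ⊗ V`.  All
strongly irreducible subspaces `U` of `X` (minimal nonzero subspaces stable under a subgroup of finite
index) are symplectic (the simple factors of `A` over the separable closure of `k` are of type I or II in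
the classification of Albert), and for each of them there are local operators in general position
(`HasLocalOperators`, see `Pool/Agent/R855/MT/Loc.lean`).  The local operators are obtained from the
operators `γ - 1`, for the elements `γ` of the group with `(γ - 1) ^ 2 = 0` (in the inertia groups
of places of bad semistable reduction), and the slope operators of the Frobenius elements at places of
good or of bad reduction, of any Newton polygon, by linear combinations, commutators and components; it is
required that for each `U` there is a local operator `N` with `N ^ 2 = 0` such that the defects of `N`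
on `U` (the rank of `N` on `U` and the multiplicities of the nonzero eigenvalues on `U` of the
operators `N N'`, `N'` local, `N' ^ 2 = 0`) have greatest common divisor one, or that one defect is
two, or odd, or prime to the dimension of `U`.

The condition on `Z`: the Galois action on each homology group of `Z` is potentially abelian, or, much more
generally, for every piece `U` every subgroup of finite index contains an element which acts trivially
on the homology group, with `χ = 1`, and which acts nontrivially on `U` (`KernelActs`).  This holds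

* if `k` has positive characteristic and `Z` is defined over a finite field, or if `Z` is cellular, or if
  it is stratified by such varieties, so that the image of `Γ` on the homology of `Z` is potentially solvable
  (a subgroup of finite index acts on `U` through a group that is not solvable);
* if for every `U` there is a place of `k` (of residue characteristic different from `ℓ`) at which the
  inertia group acts on the homology of `Z` through a finite group, and on `U` through an infinite one;
* if the Lie algebras of the images of `Γ` on `V` and on the homology of `Z` have no common nonabelian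
  quotient.

The theorem: the conjecture of Jannsen for all the varieties `A ^ n × Z`, in all dimensions and over all
finite extensions of `k`, is equivalent to the conjecture for `Z`.  (By taking averages the conjecture over
all finite extensions of `k` implies the conjecture over `k`.)
-/

namespace Pool.Agent.Results.MP_40dc3c_ag.ProductsWithVarieties

open Module TensorProduct Pool.Agent.Y126.Notions Pool.Agent.R930 Pool.Agent.TH776.FM
open Pool.Agent.R855.MT (HasLocalOperators)
open Pool.Agent.Results.MP_021685_ag.ProductsOverNumberFields (KernelActs PotentiallyAbelian)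

noncomputable section

/-- The étale homology of a variety `Z`: the groups `H_b(Z, ℚ_ℓ)` with the action of the Galois group, and
the span of the classes of `e`-dimensional cycles in `H_{2 e}`. -/
structure Homology (k Γ : Type) [Field k] [Group Γ] where
  H : ℤ → Type
  [addCommGroup : ∀ b, AddCommGroup (H b)]
  [module : ∀ b, Module k (H b)]
  [finiteDimensional : ∀ b, FiniteDimensional k (H b)]
  act : ∀ b, Representation k Γ (H b)
  cycles : ∀ e : ℤ, Submodule k (H (2 * e))

attribute [instance] Homology.addCommGroup Homology.module Homology.finiteDimensional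

section defs

variable {k Γ : Type} [Field k] [Group Γ]

/-- The conjecture of Jannsen for `Z`, over all finite extensions: the elements of `H_{2 e}(Z, ℚ_ℓ(e))` which
are invariant under a subgroup of finite index are linear combinations of classes of cycles. -/
def Surjective (χ : Γ →* k) (Z : Homology k Γ) : Prop :=
  ∀ (e : ℤ) (w : Z.H (2 * e)), (∃ Δ : Subgroup Γ, Δ.FiniteIndex ∧
    ∀ s ∈ Δ, Z.act (2 * e) s w = χ s ^ e • w) → w ∈ Z.cycles e

/-- The Künneth component of the homology of `A ^ n × Z` of degree `2 m` in `A ^ n` and with values in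
`H_{2 e}(Z)`. -/
abbrev EvenForm (V : Type) [AddCommGroup V] [Module k V] (Z : Homology k Γ) (n m : ℕ) (e : ℤ) :
    Type := (Fin n → V) [⋀^Fin m × Fin 2]→ₗ[k] Z.H (2 * e)

/-- The Künneth component of the homology of `A ^ n × Z` of degree `2 m + 1` in `A ^ n` and with values
in `H_{2 e + 1}(Z)`. -/
abbrev OddForm (V : Type) [AddCommGroup V] [Module k V] (Z : Homology k Γ) (n m : ℕ) (e : ℤ) :
    Type := (Fin n → V) [⋀^Fin (2 * m + 1)]→ₗ[k] Z.H (2 * e + 1)

variable {V : Type} [AddCommGroup V] [Module k V]

/-- A component of even degree `2 m` of a class on `A ^ n × Z` which is fixed by a subgroup of finite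
index. -/
def IsTateEven (ρ : Representation k Γ V) (χ : Γ →* k) (Z : Homology k Γ) {n m : ℕ} {e : ℤ}
    (f : EvenForm V Z n m e) : Prop :=
  ∃ Δ : Subgroup Γ, Δ.FiniteIndex ∧ ∀ s ∈ Δ, ∀ v : Fin m × Fin 2 → Fin n → V,
    f (fun l i => ρ s (v l i)) = χ s ^ ((m : ℤ) - e) • Z.act (2 * e) s (f v)

/-- A component of odd degree `2 m + 1` of a class on `A ^ n × Z` which is fixed by a subgroup of finite
index. -/
def IsTateOdd (ρ : Representation k Γ V) (χ : Γ →* k) (Z : Homology k Γ) {n m : ℕ} {e : ℤ}
    (f : OddForm V Z n m e) : Prop :=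
  ∃ Δ : Subgroup Γ, Δ.FiniteIndex ∧ ∀ s ∈ Δ, ∀ v : Fin (2 * m + 1) → Fin n → V,
    f (fun l i => ρ s (v l i)) = χ s ^ ((m : ℤ) - e) • Z.act (2 * e + 1) s (f v)

/-- `f` is the exterior product of the classes `B l` of degree two on `A ^ n` and of the class `w`. -/
def IsProduct {Z : Homology k Γ} {n m : ℕ} {e : ℤ} (B : Fin m → (Fin n → V) [⋀^Fin 2]→ₗ[k] k)
    (w : Z.H (2 * e)) (f : EvenForm V Z n m e) : Prop :=
  ∀ v, f v = (∑ σ : Equiv.Perm (Fin m × Fin 2), ((Equiv.Perm.sign σ : ℤ) : k) *
    ∏ l, B l ![v (σ (l, 0)), v (σ (l, 1))]) • w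

/-- The spans of the Künneth components of the classes of cycles on the varieties `A ^ n × Z`. -/
structure Components (V : Type) [AddCommGroup V] [Module k V] (Z : Homology k Γ) where
  even : ∀ (n m : ℕ) (e : ℤ), Submodule k (EvenForm V Z n m e)
  odd : ∀ (n m : ℕ) (e : ℤ), Submodule k (OddForm V Z n m e)

/-- They contain the products of divisor classes on `A ^ n` and of a class of a cycle on `Z`. -/
def ContainsProducts (ρ : Representation k Γ V) (χ : Γ →* k) {Z : Homology k Γ}
    (P : Components V Z) : Prop :=
  ∀ (n m : ℕ) (e : ℤ) (B : Fin m → (Fin n → V) [⋀^Fin 2]→ₗ[k] k) (w : Z.H (2 * e))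
    (f : EvenForm V Z n m e), (∀ l, IsTateClassTwo ρ χ (B l)) → w ∈ Z.cycles e →
    IsProduct B w f → f ∈ P.even n m e

/-- The cycles on `A ^ 0 × Z` are the cycles on `Z`. -/
def IsPoint {Z : Homology k Γ} (P : Components V Z) : Prop :=
  ∀ (e : ℤ), ∀ f ∈ P.even 0 0 e, f 0 ∈ Z.cycles e

/-- The known properties of the classes of cycles on `A ^ n × Z`. -/
structure IsProductCycles (ρ : Representation k Γ V) (χ : Γ →* k) {Z : Homology k Γ}
    (P : Components V Z) : Prop where
  products : ContainsProducts ρ χ P
  point : IsPoint P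

/-- The conjecture of Jannsen for `A ^ n × Z`, in all dimensions and over all finite extensions. -/
def SurjectiveOnProduct (ρ : Representation k Γ V) (χ : Γ →* k) {Z : Homology k Γ}
    (P : Components V Z) (n : ℕ) : Prop :=
  (∀ (m : ℕ) (e : ℤ) (f : EvenForm V Z n m e), IsTateEven ρ χ Z f → f ∈ P.even n m e) ∧
    ∀ (m : ℕ) (e : ℤ) (f : OddForm V Z n m e), IsTateOdd ρ χ Z f → f ∈ P.odd n m e

/-- The twist of a representation by a power of a character. -/
def twist {W : Type} [AddCommGroup W] [Module k W] (τ : Representation k Γ W) (χ : Γ →* k)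
    (j : ℤ) : Representation k Γ W where
  toFun g := χ g ^ j • τ g
  map_one' := by rw [map_one, map_one, one_zpow, one_smul]
  map_mul' g h := by
    rw [map_mul, map_mul, mul_zpow, smul_mul_assoc, mul_smul_comm, smul_smul]

theorem twist_apply {W : Type} [AddCommGroup W] [Module k W] (τ : Representation k Γ W)
    (χ : Γ →* k) (j : ℤ) (g : Γ) (w : W) : twist τ χ j g w = χ g ^ j • τ g w := rfl

end defs

/-- All strongly irreducible subspaces are symplectic and have local operators in general position. -/
def MixedPlaces {ℓ : ℕ} [Fact ℓ.Prime] {V Γ : Type} [AddCommGroup V] [Module ℚ_[ℓ] V]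
    [FiniteDimensional ℚ_[ℓ] V] [Group Γ] (ρ : Representation ℚ_[ℓ] Γ V) (χ : Γ →* ℚ_[ℓ]) : Prop :=
  ∀ U, StronglyIrreducible (extend (AlgebraicClosure ℚ_[ℓ]) ρ) U →
    IsSymplectic (extend (AlgebraicClosure ℚ_[ℓ]) ρ)
      ((algebraMap ℚ_[ℓ] (AlgebraicClosure ℚ_[ℓ]) : ℚ_[ℓ] →* _).comp χ) U ∧
    HasLocalOperators (extend (AlgebraicClosure ℚ_[ℓ]) ρ)
      ((algebraMap ℚ_[ℓ] (AlgebraicClosure ℚ_[ℓ]) : ℚ_[ℓ] →* _).comp χ) U

/-- The representation is given, in a basis of the Tate module, by integral matrices. -/
def Integral {ℓ : ℕ} [Fact ℓ.Prime] {V Γ : Type} [AddCommGroup V] [Module ℚ_[ℓ] V]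
    [Group Γ] (ρ : Representation ℚ_[ℓ] Γ V) : Prop :=
  ∃ (d : ℕ) (b : Basis (Fin d) ℚ_[ℓ] V), ∀ g i j, ‖LinearMap.toMatrix b b (ρ g) i j‖ ≤ 1

theorem result (ℓ : ℕ) [Fact ℓ.Prime] {V Γ : Type} [AddCommGroup V] [Module ℚ_[ℓ] V]
    [FiniteDimensional ℚ_[ℓ] V] [Group Γ]
    -- the abelian variety
    (ρ : Representation ℚ_[ℓ] Γ V) (χ : Γ →* ℚ_[ℓ])
    (ω : V →ₗ[ℚ_[ℓ]] V →ₗ[ℚ_[ℓ]] ℚ_[ℓ]) (hA : IsTateModule ρ χ ω)
    (hintegral : Integral ρ) (hplaces : MixedPlaces ρ χ)
    -- the variety `Z`
    (Z : Homology ℚ_[ℓ] Γ)
    (hZ : ∀ b, PotentiallyAbelian (Z.act b) ∨ KernelActs (extend (AlgebraicClosure ℚ_[ℓ]) ρ)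
      ((algebraMap ℚ_[ℓ] (AlgebraicClosure ℚ_[ℓ]) : ℚ_[ℓ] →* _).comp χ) (Z.act b))
    -- the cycles on the products
    (P : Components V Z) (hP : IsProductCycles ρ χ P) :
    (∀ n, SurjectiveOnProduct ρ χ P n) ↔ Surjective χ Z := by
  have key : ∀ (b j : ℤ), Pool.Agent.Results.MP_021685_ag.ProductsOverNumberFields.KuennethGenerated
      ρ χ (twist (Z.act b) χ j) := by
    intro b j
    obtain ⟨d, b', hintegral⟩ := hintegral
    obtain ⟨halt, hnondeg, hω, hsemisimple⟩ := hA
    refine kuenneth_local ω halt hnondeg hω hsemisimple hintegral hplaces _ ?_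
    rcases hZ b with ⟨Δ, hΔ, h⟩ | h
    · left
      refine ⟨Δ, hΔ, fun g hg g' hg' => ?_⟩
      change (χ g ^ j • Z.act b g) * (χ g' ^ j • Z.act b g') =
        (χ g' ^ j • Z.act b g') * (χ g ^ j • Z.act b g)
      rw [smul_mul_assoc, mul_smul_comm, smul_mul_assoc, mul_smul_comm, h g hg g' hg', smul_smul,
        smul_smul, mul_comm]
    · right
      intro U hU Δ hΔ
      obtain ⟨g, hg, h1, h2, h3⟩ := h U hU Δ hΔ
      have h4 : χ g = 1 := (algebraMap ℚ_[ℓ] (AlgebraicClosure ℚ_[ℓ])).injective (by
        rw [map_one]; exact h2)
      refine ⟨g, hg, ?_, h2, h3⟩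
      change χ g ^ j • Z.act b g = 1
      rw [h1, h4, one_zpow, one_smul]
  have hχ : ∀ s, χ s ≠ 0 := fun s => char_ne χ s
  constructor
  · intro H e w hw
    obtain ⟨Δ, hΔ, hw⟩ := hw
    have h1 := (H 0).1 0 e (AlternatingMap.constOfIsEmpty ℚ_[ℓ] _ _ w) ⟨Δ, hΔ, fun s hs v => by
      change w = χ s ^ ((0 : ℕ) - e : ℤ) • Z.act (2 * e) s w
      rw [hw s hs, smul_smul, ← zpow_add₀ (hχ s)]
      simp⟩
    exact hP.point e _ h1
  · intro H n
    refine ⟨fun m e f hf => ?_, fun m e f hf => ?_⟩
    · have h1 := (key (2 * e) ((m : ℤ) - e)).2 n m f hf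
      refine (Submodule.span_le.2 ?_) h1
      rintro g ⟨B, hB, w, ⟨Δ, hΔ, hw⟩, hg⟩
      refine hP.products n m e B w g hB (H e w ⟨Δ, hΔ, fun s hs => ?_⟩) hg
      have h2 := hw s hs
      rw [twist_apply] at h2
      have h3 := congrArg (fun x => χ s ^ (e - (m : ℤ)) • x) h2
      simp only [smul_smul] at h3
      rw [← zpow_add₀ (hχ s), ← zpow_natCast, ← zpow_add₀ (hχ s)] at h3
      have e1 : e - (m : ℤ) + ((m : ℤ) - e) = 0 := by ring
      have e2 : e - (m : ℤ) + (m : ℤ) = e := by ring
      rw [e1, e2, zpow_zero, one_smul] at h3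
      exact h3
    · have h1 := (key (2 * e + 1) ((m : ℤ) - e)).1 n (2 * m + 1) ⟨m, rfl⟩ f hf
      rw [h1]
      exact (P.odd n m e).zero_mem

end

end Pool.Agent.Results.MP_40dc3c_ag.ProductsWithVarieties
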