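import Pool.Agent.R937.JS.Main

/-!
# Jannsen's conjecture in positive characteristic is equivalent to the strong Tate conjecture

Jannsen's conjecture says that for every variety `X` (singular or not, proper or not) over a finitely
generated field `k` the classes of the cycles of dimension `i` span the invariants of the Galois group
in `H_{2i}(X̄, ℚ_ℓ(i))`. In characteristic zero it is equivalent to its restriction to smooth projective
varieties. In characteristic `p` this was only known for varieties with good proper covers, that is,
under a semisimplicity assumption on the étale homology. Here we show which conjecture on smooth
projective varieties it is equivalent to: to the strong Tate conjecture, which says that the order of the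
pole of the zeta function at `q ^ (-i)` is the rank of the group of numerical classes of cycles.

**Theorem.** Fix `p` and `ℓ ≠ p`. The following are equivalent:

1. Jannsen's conjecture for all varieties over all finitely generated fields of characteristic `p`;
2. the same, and in addition all elements of `H_{2i}(X̄, ℚ_ℓ(i))` on which the Galois group acts
   unipotently are invariant, for all varieties over all these fields;
3. Jannsen's conjecture for all smooth quasi-projective varieties over all finite fields of
   characteristic `p`;
4. the Tate conjecture and the semisimplicity of the eigenvalue one of Frobenius on
   `H^{2j}(P̄, ℚ_ℓ(j))`, for all smooth projective varieties `P` over all finite fields of
   characteristic `p` (`T` and `S` in the notation of Tate).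

The new point is that no semisimplicity is assumed in 1 and 3: **the surjectivity of the cycle class maps
for open varieties implies the semisimplicity** for smooth projective and, more generally, for all
varieties. By theorems of Tate the condition 4 implies that homological and numerical equivalence
coincide for all smooth projective varieties over finite fields, that Frobenius acts semisimply on all of
their cohomology (apply 4 to `P × P`), and that 4 holds for all primes different from `p`, as the
order of the pole does not depend on `ℓ`; so these follow from Jannsen's conjecture for one prime, for
open varieties. The first part of the theorem is a version for one variety `X` over an arbitrary finitely
generated field, of any characteristic.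

The proof. Let `x` be a class such that `y_g = g x - x` is invariant for all `g`. The classes `y_g` are
combinations of classes of cycles, supported on a closed subvariety `D` of dimension `i`. The restriction
of `x` to `U = X ∖ D` is invariant, so it is the class of a cycle on `U` by the conjecture for the open
variety `U`. Take the closure in `X`: then `x` is the sum of the class of a cycle and of an element that
comes from `H_{2i}(D̄, ℚ_ℓ(i))`, on which the Galois group acts through a finite quotient. As `g ↦ y_g` is
a homomorphism into a vector space of characteristic zero it is zero. So `x` is invariant. Conversely,
the generalised eigenspace for the eigenvalue one is exact, so that the semisimplicity and the Tate
conjecture for the smooth projective varieties over finite fields give those for all varieties over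
finite fields by alterations, and then the surjectivity over finitely generated fields by the spectral
sequence of Leray for a model.

The properties of étale homology that are used are collected in `IsHomology`, `IsCover`, `IsModel` and
`IsFamily`. They are theorems (Deligne, de Jong, Grothendieck, Laumon), not conjectures.
-/

set_option autoImplicit false

namespace Pool.Agent.Results.MP_40dc3c_ag.StrongTateConjecture

open Pool.Agent.R937.JS

/-- **Jannsen's conjecture implies semisimplicity**, and it is equivalent, in characteristic `p`, to the
conjectures `T` and `S` of Tate for smooth projective varieties over finite fields. -/
theorem result (Ω : Type) [Field Ω] [CharZero Ω] :
    (∀ T : Homology Ω, IsHomology T → ∀ (X : T.V) (i : ℕ), IsOntoOpen T X i →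
      IsSemisimple T X i) ∧
    ∀ (K : Type) (finite : K → Prop) (T : K → Homology Ω), IsFamily K finite T →
      List.TFAE [Jannsen T, JannsenSemisimple T, JannsenSmooth finite T, TateSemisimple finite T] :=
  ⟨fun _ hT X i h => semisimple_of_onto hT X i h, fun _ _ _ hT => main hT⟩

end Pool.Agent.Results.MP_40dc3c_ag.StrongTateConjecture
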